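import Mathlib
import Pool.Agent.W787.Fin

set_option autoImplicit false

open Set Filter Topology MeasureTheory Metric
open scoped ENNReal

namespace Pool.Agent.Results.MP_a2a261_an.FlattenedRing

open Pool.Agent.H366R3.ED

/-- The complement of `D` in the Riemann sphere. -/
def sphereCompl (D : Set ℂ) : Set (OnePoint ℂ) := ((↑) '' D)ᶜ

/-- The set of connected components of the complement of `D` in the Riemann sphere. -/
def complComponents (D : Set ℂ) : Set (Set (OnePoint ℂ)) :=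
  (fun x => connectedComponentIn (sphereCompl D) x) '' sphereCompl D

/-- `D` is a `k`-connected domain: open, connected, and its complement in the Riemann sphere has
exactly `k` connected components. -/
def IsKConnectedDomain (k : ℕ) (D : Set ℂ) : Prop :=
  IsOpen D ∧ IsConnected D ∧ (complComponents D).encard = k

/-- The horizontal compression `x + iy ↦ εx + iy`. -/
def compress (ε : ℝ) (z : ℂ) : ℂ := ⟨ε * z.re, z.im⟩

/-- `h` is an energy-minimal homeomorphism of `Ω` onto `Ω'`: a homeomorphism of class `W^{1,2}`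
whose energy is finite and equal to the infimum of the energies of all homeomorphisms of `Ω` onto
`Ω'` of class `W^{1,2}`. -/
def IsEnergyMinimalHomeo (Ω Ω' : Set ℂ) (h : ℂ → ℂ) : Prop :=
  ∃ Dh : ℂ → ℂ →L[ℝ] ℂ, IsSobolevHomeo Ω Ω' h Dh ∧ energy Ω Dh = energyInf Ω Ω' ∧
    energy Ω Dh < ⊤

open Pool.Agent.W787 Pool.Agent.H366R3

lemma two_connected {G K : Set ℂ} (hG : IsOpen G) (hGb : Bornology.IsBounded G) (hGs : Pool.Agent.W787.Star G)
    (hK : IsCompact K) (hKG : K ⊆ G) (hKp : IsPreconnected K) {a b : ℂ} (ha : a ∈ K) (hb : b ∈ K)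
    (hab : a ≠ b) (hc : IsConnected (G \ K)) :
    IsKConnectedDomain 2 (G \ K) ∧ ∀ C ∈ complComponents (G \ K), C.Nontrivial := by
  obtain ⟨h1, h2⟩ := comps_pair hG hK hKG hKp ⟨a, ha⟩ hGs.sph_preconnected
  have h3 : complComponents (G \ K) = {sphCompl G, (↑) '' K} := h1
  refine ⟨⟨hG.sdiff hK.isClosed, hc, ?_⟩, ?_⟩
  · rw [h3, Set.encard_pair h2]; rfl
  · rw [h3]
    rintro C (rfl | rfl)
    · obtain ⟨M, hM⟩ := hGb.subset_closedBall 0
      refine ⟨OnePoint.infty, ?_, (((|M| + 1 : ℝ) : ℂ) : OnePoint ℂ), ?_,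
        OnePoint.infty_ne_coe _⟩
      · rintro ⟨z, -, hz⟩
        exact OnePoint.coe_ne_infty z hz
      · rintro ⟨z, hz, hz'⟩
        rw [OnePoint.coe_injective hz'] at hz
        have h4 := hM hz
        rw [mem_closedBall_zero_iff, Complex.norm_real,
          Real.norm_of_nonneg (by positivity)] at h4
        have := le_abs_self M
        linarith
    · exact ⟨_, ⟨a, ha, rfl⟩, _, ⟨b, hb, rfl⟩, fun h => hab (OnePoint.coe_injective h)⟩

lemma ann_eq (r : ℝ) : ann r 1 = ball 0 1 \ closedBall 0 r := by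
  ext z
  constructor
  · rintro ⟨h1, h2⟩
    exact ⟨mem_ball_zero_iff.2 h2, fun h => by rw [mem_closedBall_zero_iff] at h; linarith⟩
  · rintro ⟨h1, h2⟩
    refine ⟨?_, mem_ball_zero_iff.1 h1⟩
    by_contra hcon
    exact h2 (mem_closedBall_zero_iff.2 (not_lt.1 hcon))

lemma ann_two {r : ℝ} (h0 : 0 < r) (h1 : r < 1) :
    IsKConnectedDomain 2 (ann r 1) ∧ ∀ C ∈ complComponents (ann r 1), C.Nontrivial := by
  have hp := Pool.Agent.H366R3.MB.ann_preconnected (a := r) (b := 1) h0.le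
  obtain ⟨t, ht, ht'⟩ := exists_between h1
  have hne : (ann r 1).Nonempty := by
    refine ⟨(t : ℂ), ?_⟩
    show r < ‖(t : ℂ)‖ ∧ ‖(t : ℂ)‖ < 1
    rw [Complex.norm_real, Real.norm_of_nonneg (by linarith)]
    exact ⟨ht, ht'⟩
  rw [ann_eq] at *
  apply two_connected isOpen_ball isBounded_ball ?_ (isCompact_closedBall 0 r) ?_
    (convex_closedBall 0 r).isPreconnected (a := 0) (b := (r : ℂ)) ?_ ?_ ?_ ⟨hne, hp⟩
  · refine ⟨mem_ball_self one_pos, fun z hz t h0 h1 => ?_⟩
    rw [mem_ball_zero_iff] at hz ⊢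
    rw [norm_mul, Complex.norm_real, Real.norm_of_nonneg h0]
    have := norm_nonneg z
    nlinarith
  · intro z hz
    rw [mem_closedBall_zero_iff] at hz
    rw [mem_ball_zero_iff]; linarith
  · exact mem_closedBall_self h0.le
  · rw [mem_closedBall_zero_iff, Complex.norm_real, Real.norm_of_nonneg h0.le]
  · intro h
    have : r = 0 := by exact_mod_cast h.symm
    linarith

lemma EE_one : EE 1 = G := by
  ext z
  show T (1 : ℝ)⁻¹ z ∈ G ↔ z ∈ G
  rw [inv_one, T_one]

lemma G_two : Bornology.IsBounded (G \ Slit) ∧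
    IsKConnectedDomain 2 (G \ Slit) ∧ ∀ C ∈ complComponents (G \ Slit), C.Nontrivial := by
  have O := EE_outer one_pos
  rw [EE_one] at O
  obtain ⟨c, hc, hc0, hcE⟩ := O.sec
  have hsc := exp_sc O.star hc hc0 hcE
  refine ⟨O.bd.subset sdiff_subset, ?_⟩
  exact two_connected O.op O.bd O.star Slit_compact O.slit Slit_preconnected zero_mem_Slit
    one_mem_Slit (by norm_num) ⟨⟨_, hcE 0⟩, ring_preconnected hsc⟩

lemma compress_image {l : ℝ} (hl : 0 < l) :
    (fun z : ℂ => ((l⁻¹ : ℝ) : ℂ) * z) '' (EE l \ Slit) = compress l⁻¹ '' (G \ Slit) := by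
  have hl0 : l ≠ 0 := hl.ne'
  have key : ∀ z : ℂ, ((l⁻¹ : ℝ) : ℂ) * z = compress l⁻¹ (T l⁻¹ z) := by
    intro z
    apply Complex.ext
    · simp [compress]
    · simp [compress]
  ext w
  constructor
  · rintro ⟨z, ⟨hz, hz'⟩, rfl⟩
    refine ⟨T l⁻¹ z, ⟨hz, fun h => hz' ((T_slit (inv_ne_zero hl0)).1 h)⟩, ?_⟩
    exact (key z).symm
  · rintro ⟨u, ⟨hu, hu'⟩, rfl⟩
    refine ⟨T l u, ⟨?_, fun h => hu' ((T_slit hl0).1 h)⟩, ?_⟩
    · show T l⁻¹ (T l u) ∈ G
      rw [T_inv' hl0]; exact hu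
    · simp only
      rw [key, T_inv' hl0]

/-- The example, with the annulus as first domain. -/
theorem example_ring : ∃ Ωs : Set ℂ, Bornology.IsBounded Ωs ∧ IsKConnectedDomain 2 Ωs ∧
    (∀ C ∈ complComponents Ωs, C.Nontrivial) ∧
    ∀ δ : ℝ, 0 < δ → ∃ ε : ℝ, 0 < ε ∧ ε < δ ∧ ∃ h : ℂ → ℂ,
      DifferentiableOn ℂ h {z | Real.exp (-3 / 10) < ‖z‖ ∧ ‖z‖ < 1} ∧
      IsEnergyMinimalHomeo {z | Real.exp (-3 / 10) < ‖z‖ ∧ ‖z‖ < 1} (compress ε '' Ωs) h := by
  refine ⟨G \ Slit, G_two.1, G_two.2.1, G_two.2.2, fun δ hδ => ?_⟩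
  obtain ⟨l, hl1, hl0, hlm⟩ := exists_stretch δ⁻¹
  have R := rr_spec hl0
  have hr : rr l = Real.exp (-3 / 10) := by
    have h1 : Real.log (rr l) = -3 / 10 := by
      unfold mm at hlm; linarith
    rw [← h1, Real.exp_log R.r0]
  rw [hr] at R
  have hE := (EE_outer hl0).op
  set r := Real.exp (-3 / 10) with hrd
  set p := Function.invFunOn (psi l) (EE l \ Slit) with hp
  have hpd : DifferentiableOn ℂ p (ann r 1) := inv_diff hE R
  have himg : p '' ann r 1 = EE l \ Slit := by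
    rw [← R.img]
    ext z
    constructor
    · rintro ⟨w, hw, rfl⟩; exact Pool.Agent.Helper202.Univ.invFunOn_mem hw
    · intro hz
      exact ⟨psi l z, ⟨z, hz, rfl⟩, Pool.Agent.Helper202.Univ.invFunOn_left R.inj hz⟩
  have hpi : InjOn p (ann r 1) := by
    rw [← R.img]
    intro w hw w' hw' h
    rw [← Pool.Agent.Helper202.Univ.invFunOn_right hw,
      ← Pool.Agent.Helper202.Univ.invFunOn_right hw']
    show psi l (p w) = psi l (p w')
    rw [h]
  have hl' : ((l⁻¹ : ℝ) : ℂ) ≠ 0 := by exact_mod_cast inv_ne_zero hl0.ne'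
  set h : ℂ → ℂ := fun w => ((l⁻¹ : ℝ) : ℂ) * p w with hh
  have hhd : DifferentiableOn ℂ h (ann r 1) := hpd.const_mul _
  have hhi : InjOn h (ann r 1) := by
    intro w hw w' hw' he
    exact hpi hw hw' (mul_left_cancel₀ hl' he)
  have hhimg : h '' ann r 1 = compress l⁻¹ '' (G \ Slit) := by
    rw [← compress_image hl0, ← himg, image_image]
  have hannb : Bornology.IsBounded (ann r 1) := by
    rw [ann_eq]; exact isBounded_ball.subset sdiff_subset
  have hbd : Bornology.IsBounded (h '' ann r 1) := by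
    have h1 : h '' ann r 1 = (fun z : ℂ => ((l⁻¹ : ℝ) : ℂ) * z) '' (EE l \ Slit) := by
      rw [← himg, image_image]
    rw [h1]
    obtain ⟨M, hM⟩ := (EE_outer hl0).bd.subset_closedBall 0
    apply (isBounded_closedBall (x := (0 : ℂ)) (r := l⁻¹ * M)).subset
    rintro _ ⟨z, hz, rfl⟩
    have h2 := hM hz.1
    rw [mem_closedBall_zero_iff] at h2 ⊢
    rw [norm_mul, Complex.norm_real, Real.norm_of_nonneg (by positivity)]
    exact mul_le_mul_of_nonneg_left h2 (by positivity)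
  have hm := conf_minimal (ann_open r 1) hannb hhd hhi hbd
  rw [hhimg] at hm
  refine ⟨l⁻¹, by positivity, ?_, h, hhd, fderiv ℝ h, hm.1, hm.2.1, hm.2.2⟩
  rw [inv_lt_comm₀ hl0 hδ]; exact hl1

/-- Question 1 has a negative answer: there are bounded doubly connected domains `Ω` and `Ω*`, with
no complementary component reduced to a point, and a sequence `ε j → 0`, `ε j > 0`, such that for
every `j` there is an energy-minimal homeomorphism of `Ω` onto the compressed domain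
`φ_{ε j}(Ω*)`, and it is even a conformal map. -/
theorem result : ∃ Ω Ωs : Set ℂ, Bornology.IsBounded Ω ∧ Bornology.IsBounded Ωs ∧
    IsKConnectedDomain 2 Ω ∧ IsKConnectedDomain 2 Ωs ∧
    (∀ C ∈ complComponents Ω, C.Nontrivial) ∧ (∀ C ∈ complComponents Ωs, C.Nontrivial) ∧
    ∃ ε : ℕ → ℝ, (∀ j, 0 < ε j) ∧ Tendsto ε atTop (𝓝 0) ∧
      ∀ j, ∃ h : ℂ → ℂ, DifferentiableOn ℂ h Ω ∧
        IsEnergyMinimalHomeo Ω (compress (ε j) '' Ωs) h := by
  obtain ⟨Ωs, h1, h2, h3, h4⟩ := example_ring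
  have hr0 : (0 : ℝ) < Real.exp (-3 / 10) := Real.exp_pos _
  have hr1 : Real.exp (-3 / 10) < 1 := by rw [Real.exp_lt_one_iff]; norm_num
  obtain ⟨h5, h6⟩ := ann_two hr0 hr1
  have hb : Bornology.IsBounded (ann (Real.exp (-3 / 10)) 1) := by
    rw [ann_eq]; exact isBounded_ball.subset sdiff_subset
  choose ε hε hεj hh using fun j : ℕ => h4 (1 / ((j : ℝ) + 1)) (by positivity)
  refine ⟨ann (Real.exp (-3 / 10)) 1, Ωs, hb, h1, h5, h2, h6, h3, ε, hε, ?_, hh⟩
  exact squeeze_zero (fun j => (hε j).le) (fun j => (hεj j).le) tendsto_one_div_add_atTop_nhds_zero_nat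

end Pool.Agent.Results.MP_a2a261_an.FlattenedRing
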